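import Pool.Agent.W721.ZB.Thin

/-!
The zero-in-the-spectrum conjecture for aspherical complexes whose fundamental group has a
subgroup of finite index acting freely and cocompactly on (the chambers of) a regular building of
finite thickness, of arbitrary type. A finite aspherical CW complex enters through the cellular
chain complex of its universal cover, a finite free resolution of the trivial `ℤ[π]`-module `ℤ`
(`Pool.Agent.H919R4.ZS.FinRes`). The definitions are in `Pool.Agent.H919R4.ZS.Defs` and
`Pool.Agent.W721.ZB.Defs`.

The thin case (a Coxeter group acting on itself, `Pool.Agent.W721.ZB.thin`) gives the theorem for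
all groups with a finite index subgroup which is isomorphic to a finite index subgroup of a
finitely generated Coxeter group (`Pool.Agent.W721.ZB.coxeter`).
-/

set_option autoImplicit false

namespace Pool.Agent.Results.MP_9f173d_gt.Buildings

open Pool.Agent.H919R4.ZS Pool.Agent.W721.ZB

universe u v w x

/-- Let `Δ` be a building of type `(W, S)`, `S` finite, with nonempty set `C` of chambers, which is
regular with finite parameters `q_s ≥ 1`. Let `G` be a group with a subgroup `H` of finite index
which acts on `C` by automorphisms of the building, freely and with finitely many orbits. Then
for every finite free resolution `X` of `ℤ` over `ℤ[G]`, the homology of `X` with coefficients in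
the reduced group `C*`-algebra `C*_r(G)` does not vanish in some degree. -/
theorem result {B : Type v} {W : Type w} [Group W] {M : CoxeterMatrix B}
    (cs : CoxeterSystem M W) [Finite B] {C : Type x} [Nonempty C] (Δ : Building cs C)
    (q : B → ℕ) (hq : Δ.Regular q) (G : Type u) [Group G] (H : Subgroup G) [H.FiniteIndex]
    [MulAction H C] (hδ : ∀ (h : H) (c d : C), Δ.δ (h • c) (h • d) = Δ.δ c d)
    (hfree : ∀ (h : H) (c : C), h • c = c → h = 1)
    [Finite (MulAction.orbitRel.Quotient H C)] (X : FinRes G) :
    ∃ i, Nontrivial (X.homology (toRed G) i) :=
  main_building hq H hδ hfree X

end Pool.Agent.Results.MP_9f173d_gt.Buildings
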